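import Mathlib
import Pool.Agent.Helper54.TF.Deform

set_option autoImplicit false

open MeasureTheory Set
open scoped RealInnerProductSpace

namespace Pool.Agent.Results.MP_0ec64f_mp.DilationPressure

/-!
# Thomas–Fermi pressure under dilation in one direction

For every molecule (charges `z_j ≥ 0` at distinct points `R_j` of `ℝ³`) and every `0 ≤ lam`, the
Thomas–Fermi energy of the molecule with nuclei at `(l R_j^1, R_j^2, R_j^3)` is nonincreasing in
`l > 0`.

Idea of the proof.  A dilation by a larger factor is obtained from one by a smaller factor by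
successively inserting empty slabs orthogonal to the first axis (between consecutive heights of the
nuclei), so that everything reduces to one slab.  For one slab, by convex duality, `e(lam) = sup`
over `μ ≥ 0` and compactly supported Lipschitz functions `φ` of
`∑ z_j φ(R_j) - ∫ (|∇φ|²/8π + 2/5 (φ-μ)_+^{5/2}) - μ lam` (for slightly smeared nuclei; the diagonal
self-energies cancel).  Given a trial function `φ'` for the separated molecule, cut the slab out: a
near-minimizer of the local functional on the half-space, with boundary values the larger of the two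
traces of `φ'` (one of them reflected), is glued with the two halves of `φ'` through lattice
operations, under which the local functional is additive.
-/

/-- Three-dimensional Euclidean space. -/
abbrev Space := EuclideanSpace ℝ (Fin 3)

variable {k : ℕ}

/-- The admissible densities `ϱ ≥ 0` with `∫ ϱ = lam` (finite) and `∫ ϱ^{5/3} < ∞`. -/
def IsDensity (lam : ℝ) (ρ : Space → ℝ) : Prop :=
  (∀ x, 0 ≤ ρ x) ∧ Integrable ρ ∧ Integrable (fun x => ρ x ^ (5 / 3 : ℝ)) ∧ ∫ x, ρ x = lam

/-- The Thomas–Fermi functional
`ξ(ϱ) = 3/5 ∫ ϱ^{5/3} - ∫ V ϱ + 1/2 ∬ ϱ(x) ϱ(y) / |x - y| + U` with `V(x) = ∑ z_j / |x - R_j|` and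
`U = ∑_{i<j} z_i z_j / |R_i - R_j|`. -/
noncomputable def tfFunctional (z : Fin k → ℝ) (R : Fin k → Space) (ρ : Space → ℝ) : ℝ :=
  3 / 5 * (∫ x, ρ x ^ (5 / 3 : ℝ)) - (∫ x, (∑ j, z j / ‖x - R j‖) * ρ x) +
    1 / 2 * (∫ x, ∫ y, ρ x * ρ y / ‖x - y‖) + ∑ i, ∑ j ∈ Finset.Ioi i, z i * z j / ‖R i - R j‖

/-- The Thomas–Fermi energy `e(lam) = inf {ξ(ϱ) : ∫ ϱ = lam}`. -/
noncomputable def tfEnergy (z : Fin k → ℝ) (R : Fin k → Space) (lam : ℝ) : ℝ :=
  sInf {e : ℝ | ∃ ρ, IsDensity lam ρ ∧ e = tfFunctional z R ρ}

/-- One-direction dilation: the nuclei are moved from `(R^1, R^2, R^3)` to `(l R^1, R^2, R^3)`. -/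
noncomputable def dilate (R : Fin k → Space) (l : ℝ) (j : Fin k) : Space :=
  !₂[l * R j 0, R j 1, R j 2]

/-- (Not needed for reading the theorem.)  The infimum defining the energy is over a nonempty set
that is bounded below. -/
theorem tfEnergy_isGLB (z : Fin k → ℝ) (hz : ∀ j, 0 ≤ z j) (R : Fin k → Space) (lam : ℝ)
    (hlam : 0 ≤ lam) :
    IsGLB {e : ℝ | ∃ ρ, IsDensity lam ρ ∧ e = tfFunctional z R ρ} (tfEnergy z R lam) := by
  obtain ⟨ρ, hρ⟩ := Pool.Agent.Helper54.TF.dens_nonempty hlam
  exact isGLB_csInf ⟨_, ρ, hρ, rfl⟩ (Pool.Agent.Helper54.TF.en_bdd hz R lam)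

/-- **Dilation in one direction gives nonnegative pressure.**  For all charges `z_j ≥ 0` at distinct
points `R_j` and every `lam ≥ 0`, the energy `l ↦ e(lam, l)` of the deformed molecule is
nonincreasing on `(0, ∞)`; in particular `P = -∂e/∂l ≥ 0` at every `l > 0` where the derivative
exists. -/
theorem result (k : ℕ) (z : Fin k → ℝ) (hz : ∀ j, 0 ≤ z j) (R : Fin k → Space)
    (hR : Function.Injective R) (lam : ℝ) (hlam : 0 ≤ lam) :
    AntitoneOn (fun l : ℝ => tfEnergy z (dilate R l) lam) (Ioi 0) ∧
      ∀ l : ℝ, 0 < l → ∀ e' : ℝ,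
        HasDerivAt (fun l : ℝ => tfEnergy z (dilate R l) lam) e' l → 0 ≤ -e' := by
  have hanti : AntitoneOn (fun l : ℝ => tfEnergy z (dilate R l) lam) (Ioi 0) := by
    intro l hl l' hl' hll'
    rw [mem_Ioi] at hl hl'
    let n : Space := EuclideanSpace.single 0 1
    have hn : ‖n‖ = 1 := by simp [n]
    have hin : ∀ x : Space, ⟪n, x⟫ = x 0 := by
      intro x
      simp only [n]
      rw [EuclideanSpace.inner_single_left]
      simp
    have hinj : Function.Injective (dilate R l) := by
      intro i j hij
      apply hR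
      have h0 := congrArg (fun v : Space => v 0) hij
      have h1 := congrArg (fun v : Space => v 1) hij
      have h2 := congrArg (fun v : Space => v 2) hij
      simp only [dilate] at h0 h1 h2
      ext m
      fin_cases m
      · simpa [hl.ne'] using h0
      · simpa using h1
      · simpa using h2
    have h := Pool.Agent.Helper54.TF.en_stretch (z := z) (lam := lam)
      (R := dilate R l) (g := fun j => (l' - l) * R j 0) hn hz hlam hinj (fun i j hij => by
        rw [hin, hin] at hij
        simp only [dilate] at hij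
        have h3 : l * R i 0 ≤ l * R j 0 := by simpa using hij
        have h4 : R i 0 ≤ R j 0 := le_of_mul_le_mul_left h3 hl
        exact mul_le_mul_of_nonneg_left h4 (by linarith))
    have h2 : (fun j => dilate R l j + ((l' - l) * R j 0) • n) = dilate R l' := by
      ext j m
      fin_cases m
      · simp [dilate, n]
        ring
      · simp [dilate, n]
      · simp [dilate, n]
    rw [h2] at h
    exact h
  refine ⟨hanti, fun l hl e' he' => ?_⟩
  have h1 := he'.hasDerivWithinAt.derivWithin ((uniqueDiffOn_Ioi (0 : ℝ)) l hl)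
  have h2 := hanti.derivWithin_nonpos (x := l)
  linarith

end Pool.Agent.Results.MP_0ec64f_mp.DilationPressure
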