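import Mathlib
import Pool.Agent.Helper54.TF.Deform

set_option autoImplicit false

open MeasureTheory Set
open scoped RealInnerProductSpace

namespace Pool.Agent.Results.MP_0ec64f_mp.SeparationPressure

/-!
# Thomas–Fermi pressure under separation from a plane

For every molecule (charges `z_j ≥ 0` at distinct points `R_j` of `ℝ³`), every plane
`{x : ⟪n, x⟫ = c}` (`‖n‖ = 1`) containing no nucleus and every `0 ≤ lam`, moving the nuclei on the
two sides of the plane apart never raises the Thomas–Fermi energy.

Idea of the proof.  By convex duality, `e(lam) = sup` over `μ ≥ 0` and compactly supported Lipschitz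
functions `φ` of `∑ z_j φ(R_j) - ∫ (|∇φ|²/8π + 2/5 (φ-μ)_+^{5/2}) - μ lam` (for slightly smeared
nuclei; the diagonal self-energies cancel).  Given a trial function `φ'` for the separated molecule,
cut the slab out: a near-minimizer `κ` of the local functional on the half-space, with boundary
values the larger of the two traces of `φ'` (one of them reflected), is glued with the two halves of
`φ'` through lattice operations.  The local functional `∫ (a|∇φ|² + G(φ))` is additive under
`max`/`min`, and invariant under translations and reflections, so that the glued function costs no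
more than `φ'`, while it dominates the translated `φ'` on both half-spaces.
-/

/-- Three-dimensional Euclidean space. -/
abbrev Space := EuclideanSpace ℝ (Fin 3)

variable {k : ℕ}

/-- The admissible densities `ϱ ≥ 0` with `∫ ϱ = lam` (finite) and `∫ ϱ^{5/3} < ∞`. -/
def IsDensity (lam : ℝ) (ρ : Space → ℝ) : Prop :=
  (∀ x, 0 ≤ ρ x) ∧ Integrable ρ ∧ Integrable (fun x => ρ x ^ (5 / 3 : ℝ)) ∧ ∫ x, ρ x = lam

/-- The Thomas–Fermi functional
`ξ(ϱ) = 3/5 ∫ ϱ^{5/3} - ∫ V ϱ + 1/2 ∬ ϱ(x) ϱ(y) / |x - y| + U` with `V(x) = ∑ z_j / |x - R_j|` and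
`U = ∑_{i<j} z_i z_j / |R_i - R_j|`. -/
noncomputable def tfFunctional (z : Fin k → ℝ) (R : Fin k → Space) (ρ : Space → ℝ) : ℝ :=
  3 / 5 * (∫ x, ρ x ^ (5 / 3 : ℝ)) - (∫ x, (∑ j, z j / ‖x - R j‖) * ρ x) +
    1 / 2 * (∫ x, ∫ y, ρ x * ρ y / ‖x - y‖) + ∑ i, ∑ j ∈ Finset.Ioi i, z i * z j / ‖R i - R j‖

/-- The Thomas–Fermi energy `e(lam) = inf {ξ(ϱ) : ∫ ϱ = lam}`. -/
noncomputable def tfEnergy (z : Fin k → ℝ) (R : Fin k → Space) (lam : ℝ) : ℝ :=
  sInf {e : ℝ | ∃ ρ, IsDensity lam ρ ∧ e = tfFunctional z R ρ}

/-- Separation from the plane `⟪n, x⟫ = c`: nuclei above the plane are moved by `l • n`, nuclei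
below it by `-l • n`. -/
noncomputable def separate (n : Space) (c : ℝ) (R : Fin k → Space) (l : ℝ) (j : Fin k) : Space :=
  if c < ⟪n, R j⟫ then R j + l • n else R j - l • n

/-- (Not needed for reading the theorem.)  The infimum defining the energy is over a nonempty set
that is bounded below. -/
theorem tfEnergy_isGLB (z : Fin k → ℝ) (hz : ∀ j, 0 ≤ z j) (R : Fin k → Space) (lam : ℝ)
    (hlam : 0 ≤ lam) :
    IsGLB {e : ℝ | ∃ ρ, IsDensity lam ρ ∧ e = tfFunctional z R ρ} (tfEnergy z R lam) := by
  obtain ⟨ρ, hρ⟩ := Pool.Agent.Helper54.TF.dens_nonempty hlam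
  exact isGLB_csInf ⟨_, ρ, hρ, rfl⟩ (Pool.Agent.Helper54.TF.en_bdd hz R lam)

/-- **Separation from a plane gives nonnegative pressure.**  For all charges `z_j ≥ 0` at distinct
points `R_j`, every plane `⟪n, x⟫ = c` containing no nucleus and every `lam ≥ 0`, the energy
`l ↦ e(lam, l)` of the deformed molecule is nonincreasing on `[0, ∞)`; in particular
`P = -∂e/∂l ≥ 0` at every `l ≥ 0` where the derivative (one-sided for `l = 0`) exists. -/
theorem result (k : ℕ) (z : Fin k → ℝ) (hz : ∀ j, 0 ≤ z j) (R : Fin k → Space)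
    (hR : Function.Injective R) (n : Space) (hn : ‖n‖ = 1) (c : ℝ) (hplane : ∀ j, ⟪n, R j⟫ ≠ c)
    (lam : ℝ) (hlam : 0 ≤ lam) :
    AntitoneOn (fun l : ℝ => tfEnergy z (separate n c R l) lam) (Ici 0) ∧
      ∀ l : ℝ, 0 ≤ l → ∀ e' : ℝ,
        HasDerivWithinAt (fun l : ℝ => tfEnergy z (separate n c R l) lam) e' (Ici 0) l → 0 ≤ -e' := by
  have hnn : ⟪n, n⟫ = 1 := by rw [real_inner_self_eq_norm_sq, hn]; norm_num
  have hanti : AntitoneOn (fun l : ℝ => tfEnergy z (separate n c R l) lam) (Ici 0) := by
    intro l hl l' hl' hll'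
    rw [mem_Ici] at hl hl'
    have hin : ∀ j, ⟪n, separate n c R l j⟫ = if c < ⟪n, R j⟫ then ⟪n, R j⟫ + l else ⟪n, R j⟫ - l := by
      intro j
      unfold separate
      split_ifs
      · rw [inner_add_right, inner_smul_right, hnn, mul_one]
      · rw [inner_sub_right, inner_smul_right, hnn, mul_one]
    have hlt : ∀ j, ¬ c < ⟪n, R j⟫ → ⟪n, R j⟫ < c := fun j hj =>
      lt_of_le_of_ne (not_lt.1 hj) (hplane j)
    have hinj : Function.Injective (separate n c R l) := by
      intro i j hij
      have h1 := congrArg (fun v => ⟪n, v⟫) hij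
      simp only [hin] at h1
      unfold separate at hij
      by_cases hi : c < ⟪n, R i⟫ <;> by_cases hj : c < ⟪n, R j⟫
      · rw [if_pos hi, if_pos hj] at hij
        exact hR (add_left_injective _ hij)
      · rw [if_pos hi, if_neg hj] at h1
        linarith [hlt j hj]
      · rw [if_neg hi, if_pos hj] at h1
        linarith [hlt i hi]
      · rw [if_neg hi, if_neg hj] at hij
        exact hR (sub_left_injective hij)
    have h := Pool.Agent.Helper54.TF.en_stretch (z := z) (lam := lam)
      (R := separate n c R l) (g := fun j => if c < ⟪n, R j⟫ then l' - l else -(l' - l)) hn hz hlam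
      hinj (fun i j hij => by
        rw [hin, hin] at hij
        by_cases hi : c < ⟪n, R i⟫ <;> by_cases hj : c < ⟪n, R j⟫
        · simp only [if_pos hi, if_pos hj, le_refl]
        · rw [if_pos hi, if_neg hj] at hij
          linarith [hlt j hj]
        · simp only [if_neg hi, if_pos hj]
          linarith
        · simp only [if_neg hi, if_neg hj, le_refl])
    have h2 : (fun j => separate n c R l j +
        (if c < ⟪n, R j⟫ then l' - l else -(l' - l)) • n) = separate n c R l' := by
      ext1 j
      unfold separate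
      split_ifs
      · rw [add_assoc, ← add_smul]
        congr 2
        ring
      · rw [neg_smul, sub_smul]
        abel
    rw [h2] at h
    exact h
  refine ⟨hanti, fun l hl e' he' => ?_⟩
  have h1 := he'.derivWithin (uniqueDiffOn_Ici (0 : ℝ) l hl)
  have h2 := hanti.derivWithin_nonpos (x := l)
  linarith

end Pool.Agent.Results.MP_0ec64f_mp.SeparationPressure
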